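import Pool.Agent.TH229.PB.Main

/-!
# MP_ae5b4e_an: rigidity for a conic whose whole exterior is foliated

`γ` is the unit circle `X² + Y² = Z²` in the real projective plane (every ellipse is projectively
equivalent to it).  `meet x x'` are homogeneous coordinates of the intersection of the tangent
lines of `γ` at the angles `x`, `x'`; for `x < x' < x + 2π` these are all exterior points (each of
them twice, since `meet x' (x + 2π) = -meet x x'`), and `x' ↦ meet x x'` runs once through the
tangent line at `x` without the point of tangency.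

A closed curve around `γ` which meets every tangent line of `γ` in two points is the set of the
points `meet x (τ x)`, where `τ` satisfies `Leaf`: `τ x` is the foot of the second tangent line
from the forward point of the curve on the tangent line at `x`.
-/

set_option autoImplicit false

namespace Pool.Agent.TH229.WholeExteriorConic

open Real Set

/-- Point of tangency of the tangent line at the angle `p`. -/
noncomputable def tangency (p : ℝ) : Fin 3 → ℝ := ![Real.cos p, Real.sin p, 1]

/-- Intersection of the tangent lines of the unit circle at the angles `x` and `x'`. -/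
noncomputable def meet (x x' : ℝ) : Fin 3 → ℝ :=
  ![Real.cos ((x + x') / 2), Real.sin ((x + x') / 2), Real.cos ((x' - x) / 2)]

/-- Tangent-foot description of a closed curve around the circle: the curve is the set of the
points `meet x (τ x)`. -/
structure Leaf (τ : ℝ → ℝ) : Prop where
  cont : Continuous τ
  mono : StrictMono τ
  per : ∀ x, τ (x + 2 * π) = τ x + 2 * π
  above : ∀ x, x < τ x
  below : ∀ x, τ x < x + 2 * π

/-- `𝓕` foliates the whole exterior of the circle: through every exterior point `meet x x'`,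
seen from the tangent line at `x`, passes exactly one leaf. -/
structure Foliation (𝓕 : Set (ℝ → ℝ)) : Prop where
  leaf : ∀ τ ∈ 𝓕, Leaf τ
  unique : ∀ x x', x < x' → x' < x + 2 * π → ∃! τ, τ ∈ 𝓕 ∧ τ x = x'

/-- The involution `σ_p` of the tangent line at `p`, which exchanges the two points
`meet p (τ p)` and `meet u p`, `τ u = p`, of every leaf, is projective: it is the restriction of
a projective transformation (linear automorphism of the homogeneous coordinates) fixing the point
of tangency. -/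
def ProjectiveAt (𝓕 : Set (ℝ → ℝ)) (p : ℝ) : Prop :=
  ∃ f : (Fin 3 → ℝ) ≃ₗ[ℝ] (Fin 3 → ℝ), (∃ r : ℝ, f (tangency p) = r • tangency p) ∧
    ∀ τ ∈ 𝓕, ∀ u, τ u = p → (∃ r : ℝ, f (meet p (τ p)) = r • meet u p) ∧
      ∃ r : ℝ, f (meet u p) = r • meet p (τ p)

open Pool.Agent.TH229.PB (ph dl Inv Cov W W')

theorem Leaf.toPB {τ : ℝ → ℝ} (h : Leaf τ) : Pool.Agent.TH229.PB.Leaf τ :=
  ⟨h.cont, h.mono, h.per, h.above, h.below⟩

/-- second vector of the basis of the tangent line -/
noncomputable def dirv (p : ℝ) : Fin 3 → ℝ := ![-Real.sin p, Real.cos p, 0]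

theorem meet_fwd (p v : ℝ) : meet p v =
    Real.cos ((v - p) / 2) • tangency p + Real.sin ((v - p) / 2) • dirv p := by
  have e : (p + v) / 2 = p + (v - p) / 2 := by ring
  ext i
  fin_cases i
  · simp only [meet, tangency, dirv, e, Real.cos_add]
    simp
    ring
  · simp only [meet, tangency, dirv, e, Real.sin_add]
    simp
    ring
  · simp [meet, tangency, dirv]

theorem meet_bwd (u p : ℝ) : meet u p =
    Real.cos ((p - u) / 2) • tangency p - Real.sin ((p - u) / 2) • dirv p := by
  have e : (u + p) / 2 = p - (p - u) / 2 := by ring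
  ext i
  fin_cases i
  · simp only [meet, tangency, dirv, e, Real.cos_sub]
    simp
    ring
  · simp only [meet, tangency, dirv, e, Real.sin_sub]
    simp
    ring
  · simp [meet, tangency, dirv]

theorem indep {p x y x' y' : ℝ} (h : x • tangency p + y • dirv p = x' • tangency p + y' • dirv p) :
    x = x' ∧ y = y' := by
  have h2 : x = x' := by
    have := congrFun h 2
    simpa [tangency, dirv] using this
  subst h2
  have h0 := congrFun h 0
  have h1 := congrFun h 1
  simp [tangency, dirv] at h0 h1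
  refine ⟨rfl, ?_⟩
  have hsc := Real.sin_sq_add_cos_sq p
  rcases h0 with h0 | h0
  · exact h0
  · rcases h1 with h1 | h1
    · exact h1
    · rw [h0, h1] at hsc; norm_num at hsc

/-- a nested pair of leaves -/
theorem nested {𝓕 : Set (ℝ → ℝ)} (hF : Foliation 𝓕) {τ₁ τ₂ : ℝ → ℝ} (h1 : τ₁ ∈ 𝓕) (h2 : τ₂ ∈ 𝓕)
    {p : ℝ} (hp : τ₁ p < τ₂ p) (x : ℝ) : τ₁ x < τ₂ x := by
  by_contra hx
  rw [not_lt] at hx
  have l1 := hF.leaf _ h1
  have l2 := hF.leaf _ h2
  have hc : Continuous (fun x => τ₂ x - τ₁ x) := l2.cont.sub l1.cont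
  have hmem : (0 : ℝ) ∈ uIcc ((fun x => τ₂ x - τ₁ x) x) ((fun x => τ₂ x - τ₁ x) p) := by
    rw [mem_uIcc]; left; constructor
    · simp only; linarith
    · simp only; linarith
  obtain ⟨z, -, hz⟩ := intermediate_value_uIcc (hc.continuousOn (s := uIcc x p)) hmem
  simp only at hz
  have hz' : τ₂ z = τ₁ z := by linarith
  obtain ⟨τ, -, hu⟩ := hF.unique z (τ₁ z) (l1.above z) (l1.below z)
  have e1 := hu τ₁ ⟨h1, rfl⟩
  have e2 := hu τ₂ ⟨h2, hz'⟩
  rw [e1, e2] at hp
  exact lt_irrefl _ hp

/-- normal form of the involution at `p` -/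
theorem exists_K {𝓕 : Set (ℝ → ℝ)} (hF : Foliation 𝓕) {p : ℝ} (hp : ProjectiveAt 𝓕 p) :
    ∃ k : ℝ, ∀ τ ∈ 𝓕, ∀ u, τ u = p → ph τ p - ph τ u = k := by
  obtain ⟨f, ⟨α, hα⟩, hf⟩ := hp
  have hπ := Real.pi_gt_three
  obtain ⟨τ₁, ⟨h1, h1p⟩, -⟩ := hF.unique p (p + 1) (by linarith) (by linarith)
  obtain ⟨τ₂, ⟨h2, h2p⟩, -⟩ := hF.unique p (p + 2) (by linarith) (by linarith)
  have surj : ∀ τ ∈ 𝓕, ∃ u, τ u = p := fun τ h => (hF.leaf τ h).toPB.surj p
  -- angles
  have hs1 : ∀ τ ∈ 𝓕, 0 < Real.sin ((τ p - p) / 2) := fun τ h => (hF.leaf τ h).toPB.sin_pos p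
  have hs2 : ∀ τ ∈ 𝓕, ∀ u, τ u = p → 0 < Real.sin ((p - u) / 2) := fun τ h u hu => by
    have := (hF.leaf τ h).toPB.sin_pos u
    rwa [hu] at this
  -- image of the second basis vector
  obtain ⟨β, γ, hB⟩ : ∃ β γ : ℝ, f (dirv p) = β • tangency p + γ • dirv p := by
    obtain ⟨u, hu⟩ := surj τ₁ h1
    obtain ⟨⟨r, hr⟩, -⟩ := hf τ₁ h1 u hu
    rw [meet_fwd, meet_bwd, map_add, map_smul, map_smul, hα] at hr
    have hs := (hs1 τ₁ h1).ne'
    set s := Real.sin ((τ₁ p - p) / 2)
    set co := Real.cos ((τ₁ p - p) / 2)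
    set s' := Real.sin ((p - u) / 2)
    set co' := Real.cos ((p - u) / 2)
    refine ⟨(r * co' - co * α) / s, -(r * s') / s, ?_⟩
    have h3 : s • f (dirv p) = (r * co' - co * α) • tangency p + (-(r * s')) • dirv p := by
      have : s • f (dirv p) = (co • α • tangency p + s • f (dirv p)) - co • α • tangency p := by
        abel
      rw [this, hr]
      module
    have h4 : f (dirv p) = s⁻¹ • (s • f (dirv p)) := by
      rw [smul_smul, inv_mul_cancel₀ hs, one_smul]
    rw [h4, h3, smul_add, smul_smul, smul_smul]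
    congr 2 <;> ring
  have hα0 : α ≠ 0 := by
    intro h0
    rw [h0, zero_smul] at hα
    have : tangency p = 0 := f.injective (by rw [hα, map_zero])
    have := congrFun this 2
    simp [tangency] at this
  -- the two relations
  have hE : ∀ τ ∈ 𝓕, ∀ u, τ u = p →
      (α * Real.cos ((τ p - p) / 2) + β * Real.sin ((τ p - p) / 2)) * Real.sin ((p - u) / 2) +
        γ * Real.sin ((τ p - p) / 2) * Real.cos ((p - u) / 2) = 0 ∧
      (α * Real.cos ((p - u) / 2) - β * Real.sin ((p - u) / 2)) * Real.sin ((τ p - p) / 2) +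
        γ * Real.sin ((p - u) / 2) * Real.cos ((τ p - p) / 2) = 0 := by
    intro τ hτ u hu
    obtain ⟨⟨r, hr⟩, ⟨r', hr'⟩⟩ := hf τ hτ u hu
    rw [meet_fwd p (τ p), meet_bwd u p, map_add, map_smul, map_smul, hα, hB] at hr
    rw [meet_fwd p (τ p), meet_bwd u p, map_sub, map_smul, map_smul, hα, hB] at hr'
    set s := Real.sin ((τ p - p) / 2)
    set co := Real.cos ((τ p - p) / 2)
    set s' := Real.sin ((p - u) / 2)
    set co' := Real.cos ((p - u) / 2)
    have a1 : (α * co + β * s) • tangency p + (γ * s) • dirv p =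
        (r * co') • tangency p + (-(r * s')) • dirv p := by
      calc _ = co • α • tangency p + s • (β • tangency p + γ • dirv p) := by module
        _ = _ := by rw [hr]; module
    have a2 : (α * co' - β * s') • tangency p + (-(γ * s')) • dirv p =
        (r' * co) • tangency p + (r' * s) • dirv p := by
      calc _ = co' • α • tangency p - s' • (β • tangency p + γ • dirv p) := by module
        _ = _ := by rw [hr']; module
    obtain ⟨b1, b2⟩ := indep a1
    obtain ⟨b3, b4⟩ := indep a2
    constructor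
    · rw [b1]; linear_combination co' * b2
    · rw [b3]; linear_combination -co * b4
  have hsum : ∀ τ ∈ 𝓕, ∀ u, τ u = p →
      (α + γ) * Real.sin ((τ p - p) / 2 + (p - u) / 2) = 0 := by
    intro τ hτ u hu
    obtain ⟨e1, e2⟩ := hE τ hτ u hu
    rw [Real.sin_add]
    linear_combination e1 + e2
  have hγ : γ = -α := by
    by_contra hne
    have hne' : α + γ ≠ 0 := fun h => hne (by linarith)
    have hall : ∀ τ ∈ 𝓕, ∀ u, τ u = p → τ p - u = 2 * π := by
      intro τ hτ u hu
      have h3 := (mul_eq_zero.mp (hsum τ hτ u hu)).resolve_left hne'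
      have l := hF.leaf τ hτ
      have b1 := l.above p
      have b2 := l.below p
      have b3 := l.above u
      have b4 := l.below u
      rw [hu] at b3 b4
      have h4 : (τ p - p) / 2 + (p - u) / 2 = (τ p - u) / 2 := by ring
      rw [h4] at h3
      obtain ⟨n, hn⟩ := Real.sin_eq_zero_iff.mp h3
      have hπ0 := Real.pi_pos
      have hn1 : (0 : ℝ) < n := by
        by_contra hc
        rw [not_lt] at hc
        nlinarith
      have hn2 : (n : ℝ) < 2 := by
        by_contra hc
        rw [not_lt] at hc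
        nlinarith
      have hn3 : n = 1 := by
        have : (0 : ℤ) < n := by exact_mod_cast hn1
        have : n < (2 : ℤ) := by exact_mod_cast hn2
        omega
      rw [hn3] at hn
      push_cast at hn
      linarith
    obtain ⟨u₁, hu₁⟩ := surj τ₁ h1
    obtain ⟨u₂, hu₂⟩ := surj τ₂ h2
    have e1 := hall τ₁ h1 u₁ hu₁
    have e2 := hall τ₂ h2 u₂ hu₂
    have hn := nested hF h1 h2 (p := p) (by rw [h1p, h2p]; linarith) u₂
    rw [hu₂, ← hu₁] at hn
    have := (hF.leaf τ₁ h1).mono.lt_iff_lt.mp hn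
    linarith
  refine ⟨-β / α, fun τ hτ u hu => ?_⟩
  obtain ⟨e1, -⟩ := hE τ hτ u hu
  have n1 := (hs1 τ hτ).ne'
  have n2 := (hs2 τ hτ u hu).ne'
  unfold ph
  rw [hu, Real.cot_eq_cos_div_sin, Real.cot_eq_cos_div_sin]
  rw [hγ] at e1
  field_simp
  linear_combination e1

/-- the exterior points of the plane -/
theorem exists_meet {v : Fin 3 → ℝ} (h : v 2 ^ 2 < v 0 ^ 2 + v 1 ^ 2) :
    ∃ x x' r : ℝ, x < x' ∧ x' < x + 2 * π ∧ r ≠ 0 ∧ v = r • meet x x' := by
  set z : ℂ := ⟨v 0, v 1⟩ with hz
  have hsq : ‖z‖ ^ 2 = v 0 ^ 2 + v 1 ^ 2 := by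
    rw [← Complex.normSq_eq_norm_sq, Complex.normSq_apply]; ring
  have hn : 0 < ‖z‖ := by
    by_contra hc
    have h0 : ‖z‖ = 0 := le_antisymm (not_lt.mp hc) (norm_nonneg z)
    rw [h0] at hsq
    nlinarith [sq_nonneg (v 2)]
  have habs : |v 2 / ‖z‖| < 1 := by
    rw [abs_div, abs_of_pos hn, div_lt_one hn]
    exact abs_lt_of_sq_lt_sq (by rw [hsq]; exact h) hn.le
  obtain ⟨h1, h2⟩ := abs_lt.mp habs
  set s := Real.arccos (v 2 / ‖z‖) with hs
  have hs0 : 0 < s := Real.arccos_pos.mpr h2
  have hs1 : s < π := by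
    refine lt_of_le_of_ne (Real.arccos_le_pi _) fun hh => ?_
    have := Real.arccos_eq_pi.mp hh
    linarith
  have hcs : Real.cos s = v 2 / ‖z‖ := Real.cos_arccos h1.le h2.le
  refine ⟨Complex.arg z - s, Complex.arg z + s, ‖z‖, by linarith, by linarith, hn.ne', ?_⟩
  have e1 : (Complex.arg z - s + (Complex.arg z + s)) / 2 = Complex.arg z := by ring
  have e2 : (Complex.arg z + s - (Complex.arg z - s)) / 2 = s := by ring
  ext i
  fin_cases i
  · simp only [meet, e1]
    have := Complex.norm_mul_cos_arg z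
    simp [this, hz]
  · simp only [meet, e1]
    have := Complex.norm_mul_sin_arg z
    simp [this, hz]
  · simp only [meet, e2, hcs]
    simp
    field_simp

theorem meet_swap (x x' : ℝ) : meet x' (x + 2 * π) = -meet x x' := by
  have e1 : (x' + (x + 2 * π)) / 2 = (x + x') / 2 + π := by ring
  have e2 : (x + 2 * π - x') / 2 = π - (x' - x) / 2 := by ring
  ext i
  fin_cases i
  · simp [meet, e1, Real.cos_add_pi]
  · simp [meet, e1, Real.sin_add_pi]
  · simp [meet, e2, Real.cos_pi_sub]

/-- **Rigidity of conics with totally foliated exterior.**  Let the whole exterior of the unit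
circle in the projective plane be foliated by closed curves (`Foliation`), one of them a regular
curve of class `C³`, and let all the involutions `σ_p` be projective.  Then there are `a, b, c`
with `b² + c² < a²` (the line `a Z + b X + c Y = 0` misses the closed disc) such that every leaf is
exactly the real locus of the conic `(a Z + b X + c Y)² = κ² (X² + Y² - Z²)` for some `κ`: all
leaves belong to the pencil spanned by the circle and that double line. -/
theorem result (𝓕 : Set (ℝ → ℝ)) (hF : Foliation 𝓕)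
    (hs : ∃ τ ∈ 𝓕, ContDiff ℝ 3 τ ∧ ∀ x, deriv τ x ≠ 0) (hp : ∀ p, ProjectiveAt 𝓕 p) :
    ∃ a b c : ℝ, 0 < a ∧ b ^ 2 + c ^ 2 < a ^ 2 ∧ ∀ τ ∈ 𝓕, ∃ κ : ℝ, ∀ v : Fin 3 → ℝ, v ≠ 0 →
      ((a * v 2 + b * v 0 + c * v 1) ^ 2 = κ ^ 2 * (v 0 ^ 2 + v 1 ^ 2 - v 2 ^ 2) ↔
        ∃ x r : ℝ, v = r • meet x (τ x)) := by
  choose K hK using fun p => exists_K hF (hp p)
  have hinv : ∀ τ ∈ 𝓕, Inv K τ := fun τ hτ x => hK (τ x) τ hτ x rfl
  have hcov : Cov K := by
    intro x y
    have h1 := Pool.Agent.TH229.PB.dl_pos y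
    have h2 := Pool.Agent.TH229.PB.dl_lt y
    obtain ⟨τ, ⟨hτ, hx⟩, -⟩ := hF.unique x (x + dl y) (by linarith) (by linarith)
    refine ⟨τ, (hF.leaf τ hτ).toPB, hinv τ hτ, ?_⟩
    unfold ph
    rw [hx]
    have : (x + dl y - x) / 2 = dl y / 2 := by ring
    rw [this, Pool.Agent.TH229.PB.cot_half_dl]
  obtain ⟨τ₀, h₀, hC, hd⟩ := hs
  have l₀ := hF.leaf τ₀ h₀
  have hKp : ∀ x, K (x + 2 * π) = K x := by
    intro x
    obtain ⟨u, hu⟩ := l₀.toPB.surj x
    have e1 := hK x τ₀ h₀ u hu
    have e2 := hK (x + 2 * π) τ₀ h₀ (u + 2 * π) (by rw [l₀.per, hu])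
    rw [l₀.toPB.ph_per, l₀.toPB.ph_per] at e2
    linarith
  -- smoothness of K
  have hKC : ContDiff ℝ 3 K := by
    set e := (l₀.mono.orderIsoOfSurjective τ₀ l₀.toPB.surj).toHomeomorph with he
    have hcoe : (e : ℝ → ℝ) = τ₀ := rfl
    have hsymm : ContDiff ℝ 3 (e.symm : ℝ → ℝ) := by
      refine e.contDiff_symm_deriv (f' := deriv τ₀) hd (fun x => ?_) (by rw [hcoe]; exact hC)
      rw [hcoe]
      exact (hC.differentiable (by norm_num) x).hasDerivAt
    have hph : ContDiff ℝ 3 (ph τ₀) := by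
      have e1 : ph τ₀ = fun x => Real.cos ((τ₀ x - x) / 2) / Real.sin ((τ₀ x - x) / 2) := by
        funext x; rw [ph, Real.cot_eq_cos_div_sin]
      rw [e1]
      refine ContDiff.div ?_ ?_ (fun x => (l₀.toPB.sin_pos x).ne')
      · exact Real.contDiff_cos.comp ((hC.sub contDiff_id).div_const 2)
      · exact Real.contDiff_sin.comp ((hC.sub contDiff_id).div_const 2)
    have hKe : K = fun x => ph τ₀ x - ph τ₀ (e.symm x) := by
      funext x
      have : τ₀ (e.symm x) = x := by
        have := e.apply_symm_apply x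
        rwa [hcoe] at this
      exact (hK x τ₀ h₀ (e.symm x) this).symm
    rw [hKe]
    exact hph.sub (hph.comp hsymm)
  have d1 : ∀ x, HasDerivAt K (deriv K x) x := fun x =>
    (hKC.differentiable (by norm_num) x).hasDerivAt
  have hKC1 : ContDiff ℝ 2 (deriv K) := by
    have : ContDiff ℝ (2 + 1) K := by exact_mod_cast hKC
    exact (contDiff_succ_iff_deriv.mp this).2.2
  have d2 : ∀ x, HasDerivAt (deriv K) (deriv (deriv K) x) x := fun x =>
    (hKC1.differentiable (by norm_num) x).hasDerivAt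
  have hKC2 : ContDiff ℝ 1 (deriv (deriv K)) := by
    have : ContDiff ℝ (1 + 1) (deriv K) := by exact_mod_cast hKC1
    exact (contDiff_succ_iff_deriv.mp this).2.2
  have d3 : ∀ x, HasDerivAt (deriv (deriv K)) (deriv (deriv (deriv K)) x) x := fun x =>
    (hKC2.differentiable (by norm_num) x).hasDerivAt
  have hc3 : Continuous (deriv (deriv (deriv K))) := hKC2.continuous_deriv (le_refl _)
  obtain ⟨a, b, c, hpos, hleaf⟩ := Pool.Agent.TH229.PB.core d1 d2 d3 hc3 hKp hcov
  obtain ⟨ha, hbc⟩ := Pool.Agent.TH229.PB.pos_coeff hpos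
  refine ⟨a, b, c, ha, hbc, fun τ hτ => ?_⟩
  obtain ⟨κ, hκ⟩ := hleaf τ (hF.leaf τ hτ).toPB (hinv τ hτ)
  have l := hF.leaf τ hτ
  -- on the circle of tangents from `x` the level determines the point
  have huniq : ∀ x x', x < x' → x' < x + 2 * π →
      a * Real.cos ((x' - x) / 2) + b * Real.cos ((x + x') / 2) + c * Real.sin ((x + x') / 2) =
        κ * Real.sin ((x' - x) / 2) → x' = τ x := by
    intro x x' hx hx' heq
    have hs' : 0 < Real.sin ((x' - x) / 2) :=
      Real.sin_pos_of_pos_of_lt_pi (by linarith) (by linarith)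
    have hst := l.toPB.sin_pos x
    have key : ∀ z, 0 < Real.sin ((z - x) / 2) →
        a * Real.cos ((z - x) / 2) + b * Real.cos ((x + z) / 2) + c * Real.sin ((x + z) / 2) =
        κ * Real.sin ((z - x) / 2) → Real.cot ((z - x) / 2) = (κ - W' b c x) / W a b c x := by
      intro z hz h
      have e : (x + z) / 2 = x + (z - x) / 2 := by ring
      rw [e, Real.cos_add, Real.sin_add] at h
      have hw := (hpos x).ne'
      rw [Real.cot_eq_cos_div_sin, div_eq_div_iff hz.ne' hw]
      unfold W W'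
      linear_combination h
    have k1 := key x' hs' heq
    have k2 := key (τ x) hst (hκ x)
    have k3 := Pool.Agent.TH229.PB.dl_cot (x' - x) (by linarith) (by linarith)
    have k4 := Pool.Agent.TH229.PB.dl_cot (τ x - x) (by linarith [l.above x])
      (by linarith [l.below x])
    rw [k1] at k3
    rw [k2] at k4
    linarith
  refine ⟨κ, fun v hv => ⟨fun hQ => ?_, ?_⟩⟩
  · -- a point of the conic is exterior
    have hext : v 2 ^ 2 < v 0 ^ 2 + v 1 ^ 2 := by
      by_contra hcon
      rw [not_lt] at hcon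
      have hL : (a * v 2 + b * v 0 + c * v 1) ^ 2 ≤ 0 := by
        rw [hQ]
        exact mul_nonpos_of_nonneg_of_nonpos (sq_nonneg _) (by linarith)
      have hL0 : a * v 2 + b * v 0 + c * v 1 = 0 := by
        have := le_antisymm hL (sq_nonneg _)
        exact pow_eq_zero_iff two_ne_zero |>.mp this
      have h1 : (a * v 2) ^ 2 = (b * v 0 + c * v 1) ^ 2 := by
        have : a * v 2 = -(b * v 0 + c * v 1) := by linarith
        rw [this]; ring
      have h2 : (b * v 0 + c * v 1) ^ 2 ≤ (b ^ 2 + c ^ 2) * (v 0 ^ 2 + v 1 ^ 2) := by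
        nlinarith [sq_nonneg (b * v 1 - c * v 0)]
      have hv2 : v 2 = 0 := by
        by_contra hne
        have hpos2 : 0 < v 2 ^ 2 := by positivity
        have h3 : (b ^ 2 + c ^ 2) * (v 0 ^ 2 + v 1 ^ 2) ≤ (b ^ 2 + c ^ 2) * v 2 ^ 2 :=
          mul_le_mul_of_nonneg_left hcon (by positivity)
        nlinarith
      rw [hv2] at hcon
      have hv0 : v 0 = 0 := by nlinarith [sq_nonneg (v 0), sq_nonneg (v 1)]
      have hv1 : v 1 = 0 := by nlinarith [sq_nonneg (v 0), sq_nonneg (v 1)]
      apply hv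
      ext i
      fin_cases i
      · exact hv0
      · exact hv1
      · exact hv2
    obtain ⟨x, x', r, hx, hx', hr, rfl⟩ := exists_meet hext
    have e0 : (r • meet x x') 0 = r * Real.cos ((x + x') / 2) := by simp [meet]
    have e1 : (r • meet x x') 1 = r * Real.sin ((x + x') / 2) := by simp [meet]
    have e2 : (r • meet x x') 2 = r * Real.cos ((x' - x) / 2) := by simp [meet]
    rw [e0, e1, e2] at hQ
    have hsc1 := Real.sin_sq_add_cos_sq ((x + x') / 2)
    have hsc2 := Real.sin_sq_add_cos_sq ((x' - x) / 2)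
    have hQ2 : r ^ 2 * ((a * Real.cos ((x' - x) / 2) + b * Real.cos ((x + x') / 2) +
        c * Real.sin ((x + x') / 2)) ^ 2 - (κ * Real.sin ((x' - x) / 2)) ^ 2) = 0 := by
      linear_combination hQ + r ^ 2 * κ ^ 2 * (hsc1 - hsc2)
    have hQ3 := (mul_eq_zero.mp hQ2).resolve_left (pow_ne_zero 2 hr)
    have hQ4 : (a * Real.cos ((x' - x) / 2) + b * Real.cos ((x + x') / 2) +
        c * Real.sin ((x + x') / 2)) ^ 2 = (κ * Real.sin ((x' - x) / 2)) ^ 2 := by linarith
    rcases sq_eq_sq_iff_eq_or_eq_neg.mp hQ4 with h | h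
    · have := huniq x x' hx hx' h
      exact ⟨x, r, by rw [this]⟩
    · have h5 := huniq x' (x + 2 * π) (by linarith) (by linarith) (by
        have e3 : (x' + (x + 2 * π)) / 2 = (x + x') / 2 + π := by ring
        have e4 : (x + 2 * π - x') / 2 = π - (x' - x) / 2 := by ring
        rw [e3, e4, Real.cos_pi_sub, Real.sin_pi_sub, Real.cos_add_pi, Real.sin_add_pi]
        linarith)
      refine ⟨x', -r, ?_⟩
      rw [← h5, meet_swap]
      simp
  · rintro ⟨x, r, rfl⟩
    have e0 : (r • meet x (τ x)) 0 = r * Real.cos ((x + τ x) / 2) := by simp [meet]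
    have e1 : (r • meet x (τ x)) 1 = r * Real.sin ((x + τ x) / 2) := by simp [meet]
    have e2 : (r • meet x (τ x)) 2 = r * Real.cos ((τ x - x) / 2) := by simp [meet]
    rw [e0, e1, e2]
    have h := hκ x
    have hsc1 := Real.sin_sq_add_cos_sq ((x + τ x) / 2)
    have hsc2 := Real.sin_sq_add_cos_sq ((τ x - x) / 2)
    have h2 : a * (r * Real.cos ((τ x - x) / 2)) + b * (r * Real.cos ((x + τ x) / 2)) +
        c * (r * Real.sin ((x + τ x) / 2)) = r * (κ * Real.sin ((τ x - x) / 2)) := by
      rw [← h]; ring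
    rw [h2]
    linear_combination r ^ 2 * κ ^ 2 * (hsc2 - hsc1)

end Pool.Agent.TH229.WholeExteriorConic
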